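import Mathlib
import Pool.Agent.V11172.RsFinal

/-!
# MP_fa909a_co, Q1: long monochromatic progressions in the Rudin–Shapiro sequence

For every `k ≥ 5` one has `A_r(d) ≤ 2 ^ (k - 1)` for all `1 ≤ d ≤ 2 ^ k - 2`, and
`A_r(2 ^ k - 1)` is `2 ^ (k - 1) + 1` for even `k` and `2 ^ (k - 1) + 3` for odd `k`.
-/

namespace Pool.Agent.Results.MP_fa909a_co.PowersOfTwo

open Pool.Agent.V11172.Rs

/-- `e_11(n)`: the number of positions `i` such that the binary digits `i` and `i + 1` of `n`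
are both one, that is, the number of occurrences of the block `11` in the binary expansion. -/
def e (n : ℕ) : ℕ := ((Finset.range n).filter fun i => n.testBit i ∧ n.testBit (i + 1)).card

/-- The Rudin–Shapiro sequence. -/
def rs (n : ℕ) : ℕ := e n % 2

/-- `A_r(n, d)`: the supremum of the lengths `l ≥ 1` of the monochromatic progressions of
difference `d` which start at `n`. -/
noncomputable def AStart (n d : ℕ) : ℕ∞ :=
  ⨆ (l : ℕ) (_ : 1 ≤ l ∧ ∀ i < l, rs (n + i * d) = rs n), (l : ℕ∞)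

/-- `A_r(d)`: the supremum over all starting points. -/
noncomputable def A (d : ℕ) : ℕ∞ := ⨆ n : ℕ, AStart n d

lemma rs_eq_iff (a b : ℕ) : rs a = rs b ↔ r a = r b := by
  unfold rs e r e11
  rw [ZMod.natCast_eq_natCast_iff']

lemma A_le {d B : ℕ} (h : ∀ n, ¬ Mono n d (B + 1)) : A d ≤ (B : ℕ∞) := by
  unfold A AStart
  refine iSup_le fun n => iSup_le fun l => iSup_le fun hl => ?_
  rw [Nat.cast_le]
  by_contra hlt
  apply h n
  exact ⟨r n, fun i hi => (rs_eq_iff _ _).1 (hl.2 i (by omega))⟩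

lemma le_A {n d L : ℕ} (hL : 1 ≤ L) (h : Mono n d L) : (L : ℕ∞) ≤ A d := by
  obtain ⟨c, hc⟩ := h
  have h1 : ((L : ℕ) : ℕ∞) ≤ AStart n d := by
    unfold AStart
    refine le_iSup_of_le L (le_iSup_of_le ⟨hL, fun i hi => ?_⟩ le_rfl)
    rw [rs_eq_iff, hc i hi]
    have h0 := hc 0 (by omega)
    rw [zero_mul, add_zero] at h0
    exact h0.symm
  exact h1.trans (le_iSup (fun n => AStart n d) n)

/-- **Q1 of MP_fa909a_co.** -/
theorem result : ∀ k : ℕ, 5 ≤ k →
    (⨆ (d : ℕ) (_ : 1 ≤ d ∧ d ≤ 2 ^ k - 2), A d) ≤ ((2 ^ (k - 1) : ℕ) : ℕ∞) ∧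
    (Even k → A (2 ^ k - 1) = ((2 ^ (k - 1) + 1 : ℕ) : ℕ∞)) ∧
    (Odd k → A (2 ^ k - 1) = ((2 ^ (k - 1) + 3 : ℕ) : ℕ∞)) := by
  intro k hk
  obtain ⟨K, rfl⟩ : ∃ K, k = K + 1 := ⟨k - 1, by omega⟩
  have hp : 2 ^ (K + 1) = 2 * 2 ^ K := by ring
  have hpos : 0 < 2 ^ K := by positivity
  rw [Nat.add_sub_cancel]
  refine ⟨?_, fun hke => ?_, fun hko => ?_⟩
  · refine iSup_le fun d => iSup_le fun hd => ?_
    apply A_le
    intro n
    have := allB (k := K + 1) hk hd.1 (by omega) n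
    rw [Nat.add_sub_cancel] at this
    exact this
  · have hKo : K % 2 = 1 := by
      have := Nat.even_iff.1 hke
      omega
    apply le_antisymm
    · exact A_le (fun n => minusC (K := K) (by omega) (Or.inr ⟨hKo, rfl⟩))
    · exact le_A (by omega) (long_odd K (by omega))
  · have hKe : K % 2 = 0 := by
      have := Nat.odd_iff.1 hko
      omega
    apply le_antisymm
    · exact A_le (fun n => minusC (K := K) (by omega) (Or.inl ⟨hKe, rfl⟩))
    · exact le_A (by omega) (long_even K (by omega) hKe)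

end Pool.Agent.Results.MP_fa909a_co.PowersOfTwo
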